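import Pool.Agent.H70.NC.Targets

/-! Module TLX: the tail bound. -/

set_option autoImplicit false

namespace Pool.Agent.H31.NC

open Finset Filter Pool.Agent.H6.NB Pool.Agent.H70.OQ Pool.Agent.H70.NC

theorem uw_nonneg {A Z : Type} [Fintype A] [DecidableEq Z] (L : A → Finset Z) (h : A → Z) :
    0 ≤ uw L h := by
  unfold uw
  refine prod_nonneg fun a _ => ?_
  split_ifs <;> positivity

theorem tlx (h1 : T_QCT) (h2 : T_MOM) : T_TLX := by
  intro M R _ _ _ _ _ D L δ l T hδ hL hl hT
  set m : ℕ := Fintype.card M with hm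
  set y : ℝ := Real.exp (4 * δ) with hy
  have hy0 : 0 < y := Real.exp_pos _
  have hy1 : 1 ≤ y := Real.one_le_exp (by positivity)
  have hL0 : (0 : ℝ) < L := by exact_mod_cast (by omega : 0 < L)
  have hqc := h1 (M × R) M D T hT
  have hmom := h2 M R (m * D) L y l (fun y m => (T m).eval y) hy1 hL hl hqc
  -- termwise
  have hterm : ∀ (β : M → Bool) (h : M → R), uw (Lof l) h *
      ic ((1 / 2 + δ) * (m : ℝ) < cor (fun m y => (T m).eval y) h β) ≤
      Real.exp (-(4 * δ * ((1 / 2 + δ) * m))) * (uw (Lof l) h *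
        y ^ (univ.filter fun m => (fun y m => (T m).eval y) (glu h β) m = β m).card) := by
    intro β h
    have hu := uw_nonneg (Lof l) h
    have e1 : (univ.filter fun m => (fun y m => (T m).eval y) (glu h β) m = β m).card =
        cor (fun m y => (T m).eval y) h β := rfl
    rw [e1]
    set N := cor (fun m y => (T m).eval y) h β with hN
    have h3 : ic ((1 / 2 + δ) * (m : ℝ) < (N : ℝ)) ≤
        Real.exp (-(4 * δ * ((1 / 2 + δ) * m))) * y ^ N := by
      unfold ic
      split_ifs with hc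
      · rw [hy, ← Real.exp_nat_mul, ← Real.exp_add]
        apply Real.one_le_exp
        nlinarith
      · positivity
    calc _ ≤ uw (Lof l) h * (Real.exp (-(4 * δ * ((1 / 2 + δ) * m))) * y ^ N) :=
          mul_le_mul_of_nonneg_left h3 hu
      _ = _ := by ring
  have hsum : ∑ β : M → Bool, ∑ h : M → R, uw (Lof l) h *
      ic ((1 / 2 + δ) * (m : ℝ) < cor (fun m y => (T m).eval y) h β) ≤
      Real.exp (-(4 * δ * ((1 / 2 + δ) * m))) * ((1 + y) ^ m * (1 + 1 / (L : ℝ)) ^ (m * D)) := by
    calc _ ≤ ∑ β : M → Bool, ∑ h : M → R, Real.exp (-(4 * δ * ((1 / 2 + δ) * m))) *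
          (uw (Lof l) h *
            y ^ (univ.filter fun m => (fun y m => (T m).eval y) (glu h β) m = β m).card) :=
          sum_le_sum fun β _ => sum_le_sum fun h _ => hterm β h
      _ = Real.exp (-(4 * δ * ((1 / 2 + δ) * m))) * ∑ β : M → Bool, ∑ h : M → R,
          uw (Lof l) h *
            y ^ (univ.filter fun m => (fun y m => (T m).eval y) (glu h β) m = β m).card := by
          simp_rw [mul_sum]
      _ ≤ _ := mul_le_mul_of_nonneg_left hmom (Real.exp_pos _).le
  refine hsum.trans ?_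
  have h4 : (1 + 1 / (L : ℝ)) ^ (m * D) ≤ Real.exp (m * (D / L)) := by
    calc (1 + 1 / (L : ℝ)) ^ (m * D) ≤ (Real.exp (1 / (L : ℝ))) ^ (m * D) := by
          apply pow_le_pow_left₀ (by positivity)
          linarith [Real.add_one_le_exp (1 / (L : ℝ))]
      _ = Real.exp (m * (D / L)) := by
          rw [← Real.exp_nat_mul]
          congr 1
          push_cast
          ring
  have h5 : 1 + y ≤ 2 * Real.exp (2 * δ + 2 * δ ^ 2) := by
    have h6 := Real.cosh_le_exp_half_sq (2 * δ)
    rw [Real.cosh_eq] at h6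
    have h7 : 1 + y = 2 * Real.exp (2 * δ) * ((Real.exp (2 * δ) + Real.exp (-(2 * δ))) / 2) := by
      have e1 : Real.exp (2 * δ) * Real.exp (2 * δ) = y := by
        rw [← Real.exp_add, hy]
        congr 1
        ring
      have e2 : Real.exp (2 * δ) * Real.exp (-(2 * δ)) = 1 := by
        rw [← Real.exp_add]
        simp
      linear_combination -e1 - e2
    rw [h7]
    calc _ ≤ 2 * Real.exp (2 * δ) * Real.exp ((2 * δ) ^ 2 / 2) :=
          mul_le_mul_of_nonneg_left h6 (by positivity)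
      _ = 2 * Real.exp (2 * δ + 2 * δ ^ 2) := by
          rw [mul_assoc, ← Real.exp_add]
          congr 2
          ring
  have h8 : (1 + y) ^ m ≤ 2 ^ m * Real.exp (m * (2 * δ + 2 * δ ^ 2)) := by
    calc (1 + y) ^ m ≤ (2 * Real.exp (2 * δ + 2 * δ ^ 2)) ^ m :=
          pow_le_pow_left₀ (by positivity) h5 m
      _ = _ := by rw [mul_pow, ← Real.exp_nat_mul]
  calc Real.exp (-(4 * δ * ((1 / 2 + δ) * m))) * ((1 + y) ^ m * (1 + 1 / (L : ℝ)) ^ (m * D))
      ≤ Real.exp (-(4 * δ * ((1 / 2 + δ) * m))) *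
        ((2 ^ m * Real.exp (m * (2 * δ + 2 * δ ^ 2))) * Real.exp (m * (D / L))) := by
        gcongr
    _ = 2 ^ m * (Real.exp (-(4 * δ * ((1 / 2 + δ) * m))) *
        Real.exp (m * (2 * δ + 2 * δ ^ 2)) * Real.exp (m * (D / L))) := by ring
    _ = 2 ^ m * Real.exp (m * (-2 * δ ^ 2 + D / L)) := by
        rw [← Real.exp_add, ← Real.exp_add]
        congr 2
        ring

end Pool.Agent.H31.NC
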